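import Pool.Agent.L0h98.GS.Def
import Pool.Agent.H160R2.HF.Defs

set_option autoImplicit false

/-!
# Project RF (MP_974d84_co): nowhere-zero 5-flows in almost all graphs with a given degree sequence.
Definitions and statements.
-/

namespace Pool.Agent.L0h98.RF

open Finset Classical
open Pool.Agent.L0h98.GS (Hf Sim Cg eC GirthGt Bad)
open Pool.Agent.N404.LF (cnt)
open Pool.Agent.H160R2.HF

/-- the number of half-edges at `X` -/
noncomputable def sz {V : Type} {m : ℕ} (a : Hf m → V) (X : Finset V) : ℕ := ∑ v ∈ X, cnt a v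

/-- the number of edges with exactly one end in `X` -/
noncomputable def cC {V : Type} {m : ℕ} (a : Hf m → V) (π : Equiv.Perm (Hf m))
    (X : Finset V) : ℕ :=
  (univ.filter fun i : Fin m => ¬ (a (π (i, false)) ∈ X ↔ a (π (i, true)) ∈ X)).card

/-- the multigraph of a configuration -/
def Bg {V : Type} {m : ℕ} (a : Hf m → V) (π : Equiv.Perm (Hf m)) : OrGraph V (Fin m) where
  t i := a (π (i, false))
  h i := a (π (i, true))

/-- the edges of `B` inside `X` -/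
noncomputable def ins {V E : Type} [Fintype E] (B : OrGraph V E) (X : Finset V) : Finset E :=
  univ.filter fun e => B.t e ∈ X ∧ B.h e ∈ X

/-- nowhere-zero 5-flow of a multigraph -/
def Flow5 {V E : Type} [Fintype E] (B : OrGraph V E) : Prop :=
  ∃ φ : E → ℤ, B.IsFlow φ ∧ ∀ e, 1 ≤ |φ e| ∧ |φ e| ≤ 4

/-- nowhere-zero 5-flow of a simple graph -/
def SFlow {V : Type} [Fintype V] (G : SimpleGraph V) : Prop :=
  ∃ f : V → V → ℤ, (∀ u v, f u v = - f v u) ∧ (∀ u v, G.Adj u v → 1 ≤ |f u v| ∧ |f u v| ≤ 4) ∧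
    (∀ u v, ¬ G.Adj u v → f u v = 0) ∧ ∀ u, ∑ v, f u v = 0

/-! ### the expanded cubic graph -/

/-- `lab` numbers the half-edges at each vertex `v` by `0, 1, ..., deg v - 1`. -/
def Lab {V E : Type} [Fintype V] [Fintype E] [DecidableEq V] [DecidableEq E] (B : OrGraph V E)
    (lab : E × Bool → ℕ) : Prop :=
  ∀ v, ∀ j < B.deg univ v, ∃! x : E × Bool, (if x.2 then B.h x.1 else B.t x.1) = v ∧ lab x = j

/-- the graph in which the vertex `v` of degree `d` is replaced by a path with `d - 2` vertices;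
its first two half-edges (and its last two) go to the same vertex -/
def Ex {V E : Type} [Fintype V] [Fintype E] [DecidableEq V] [DecidableEq E] (B : OrGraph V E)
    (h3 : ∀ v, 3 ≤ B.deg univ v) (lab : E × Bool → ℕ) :
    OrGraph (Σ v, Fin (B.deg univ v - 2)) (E ⊕ Σ v, Fin (B.deg univ v - 3)) where
  t := Sum.elim
    (fun e => ⟨B.t e, ⟨min (lab (e, false) - 1) (B.deg univ (B.t e) - 3),
      by have := h3 (B.t e); omega⟩⟩)
    (fun y => ⟨y.1, ⟨y.2.1, by have := y.2.2; omega⟩⟩)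
  h := Sum.elim
    (fun e => ⟨B.h e, ⟨min (lab (e, true) - 1) (B.deg univ (B.h e) - 3),
      by have := h3 (B.h e); omega⟩⟩)
    (fun y => ⟨y.1, ⟨y.2.1 + 1, by have := y.2.2; omega⟩⟩)

/-! ### leaves: configurations -/

/-- MPX: permutations which map a set of positions into a set of labels. -/
def S_MPX : Prop := ∀ (X : Type) [Fintype X] [DecidableEq X] (S T : Finset X),
  (Fintype.card X).descFactorial S.card *
    (univ.filter fun π : Equiv.Perm X => ∀ a ∈ S, π a ∈ T).card ≤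
  T.card.descFactorial S.card * (Fintype.card X).factorial

/-- INS: sets with many inner edges, union bound over the positions of the inner edges. -/
def S_INS : Prop := ∀ (V : Type) (m : ℕ) (a : Hf m → V) (X : Finset V) (e : ℕ), e ≤ m →
  (2 * m).descFactorial (2 * e) *
    (univ.filter fun π : Equiv.Perm (Hf m) => e ≤ eC a π X).card ≤
  m.choose e * (sz a X).descFactorial (2 * e) * (2 * m).factorial

/-- NUM: the number of sets of vertices with `s` half-edges. -/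
def S_NUM : Prop := ∀ (V : Type) [Fintype V] (m : ℕ) (a : Hf m → V), (∀ v, 3 ≤ cnt a v) →
  ∀ (s : ℕ) (y : ℝ), 0 < y → y ≤ 1 →
  ((univ.filter fun X : Finset V => sz a X = s).card : ℝ) ≤
    y ^ (-(s : ℝ) / 3) * (1 + y) ^ ((2 : ℝ) * m / 3)

/-- BIN: binomial coefficients from below. -/
def S_BIN : Prop := ∀ m e : ℕ, 1 ≤ e → 2 * e ≤ m →
  (1 + (e : ℝ) / ((m : ℝ) - e)) ^ m ≤
    (m + 1) * (m.choose e : ℝ) * ((e : ℝ) / ((m : ℝ) - e)) ^ e

/-- the bound for one pair `(s, c)`, `s = 2 e + c` -/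
noncomputable def bd (m s c e : ℕ) : ℝ :=
  (s.choose c : ℝ) * (m + 1) * ((e : ℝ) / ((m : ℝ) - e)) ^ ((e : ℝ) - s / 3) *
    (1 + (e : ℝ) / ((m : ℝ) - e)) ^ (-(m : ℝ) / 3)

/-- ONE: sets with `s` half-edges and `e` inner edges. -/
def S_ONE : Prop := ∀ (V : Type) [Fintype V] (m : ℕ) (a : Hf m → V), (∀ v, 3 ≤ cnt a v) →
  ∀ s c e : ℕ, s = 2 * e + c → 1 ≤ e → s ≤ m →
  ((univ.filter fun π : Equiv.Perm (Hf m) =>
    ∃ X : Finset V, sz a X = s ∧ e ≤ eC a π X).card : ℝ) ≤ ((2 * m).factorial : ℝ) * bd m s c e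

/-- BGN: the numerical estimate. -/
def S_BGN : Prop := ∃ q S₀ m₀ : ℕ, 3 ≤ q ∧ 1 ≤ S₀ ∧ ∀ m s c e : ℕ, m₀ ≤ m → S₀ ≤ s → s ≤ m →
  q * c ≤ s → s = 2 * e + c → (m : ℝ) * (m + 1) ^ 2 * bd m s c e ≤ 1

/-- BIG: large sets of vertices have many boundary edges. -/
def S_BIG : Prop := ∃ q S₀ m₀ : ℕ, ∀ (V : Type) [Fintype V] (m : ℕ) (a : Hf m → V), m₀ ≤ m →
  (∀ v, 3 ≤ cnt a v) →
  m * (univ.filter fun π : Equiv.Perm (Hf m) =>
    ∃ X : Finset V, S₀ ≤ sz a X ∧ sz a X ≤ m ∧ q * cC a π X ≤ sz a X).card ≤ (2 * m).factorial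

/-- SML: small sets of vertices span at most one circuit. -/
def S_SML : Prop := ∀ Δ K : ℕ, ∃ C m₀ : ℕ, ∀ (V : Type) [Fintype V] (m : ℕ) (a : Hf m → V),
  m₀ ≤ m → (∀ v, 1 ≤ cnt a v) → (∀ v, cnt a v ≤ Δ) →
  m * (univ.filter fun π : Equiv.Perm (Hf m) =>
    ∃ X : Finset V, X.card ≤ K ∧ X.card < eC a π X).card ≤ C * (2 * m).factorial

/-! ### leaves: the deterministic part -/

/-- LAB: such numberings exist. -/
def S_LAB : Prop := ∀ (V E : Type) [Fintype V] [Fintype E] [DecidableEq V] [DecidableEq E]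
  (B : OrGraph V E), ∃ lab : E × Bool → ℕ, Lab B lab

/-- CUB: the expanded graph is cubic and has no loops. -/
def S_CUB : Prop := ∀ (V E : Type) [Fintype V] [Fintype E] [DecidableEq V] [DecidableEq E]
  (B : OrGraph V E) (h3 : ∀ v, 3 ≤ B.deg univ v) (lab : E × Bool → ℕ), Lab B lab →
  (Ex B h3 lab).Cubic ∧
    ((∀ e, B.t e ≠ B.h e) → ∀ e, (Ex B h3 lab).t e ≠ (Ex B h3 lab).h e)

/-- EXX: the expanded graph is an expander. -/
def S_EXX : Prop := ∀ (V E : Type) [Fintype V] [Fintype E] [DecidableEq V] [DecidableEq E]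
  (B : OrGraph V E) (h3 : ∀ v, 3 ≤ B.deg univ v) (lab : E × Bool → ℕ) (Δ q : ℕ),
  (∀ v, B.deg univ v ≤ Δ) →
  (∀ X : Finset V, ∑ v ∈ X, B.deg univ v ≤ Fintype.card E →
    ∑ v ∈ X, B.deg univ v ≤ q * (B.cut X).card) →
  ∀ X : Finset (Σ v, Fin (B.deg univ v - 2)),
    2 * X.card ≤ Fintype.card (Σ v, Fin (B.deg univ v - 2)) →
    X.card ≤ ((q + 1) * (Δ + 1)) * ((Ex B h3 lab).cut X).card

/-- SMX: small sets of the expanded graph span at most one circuit. -/
def S_SMX : Prop := ∀ (V E : Type) [Fintype V] [Fintype E] [DecidableEq V] [DecidableEq E]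
  (B : OrGraph V E) (h3 : ∀ v, 3 ≤ B.deg univ v) (lab : E × Bool → ℕ) (K : ℕ),
  (∀ X : Finset V, X.card ≤ K → (ins B X).card ≤ X.card) →
  ∀ X : Finset (Σ v, Fin (B.deg univ v - 2)), X.card ≤ K →
    (ins (Ex B h3 lab) X).card ≤ X.card

/-- CUBF: 5-flows in cubic expanders. -/
def S_CUBF : Prop := ∀ (V E : Type) [Fintype V] [Fintype E] [DecidableEq V] [DecidableEq E]
  (G : OrGraph V E) (q : ℕ), G.Cubic → (∀ e, G.t e ≠ G.h e) →
  (∀ X : Finset V, 2 * X.card ≤ Fintype.card V → X.card ≤ q * (G.cut X).card) →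
  (∀ X : Finset V, X.card ≤ 4 ^ (10 * q + 5) → (ins G X).card ≤ X.card) → Flow5 G

/-- CON: contraction of the paths. -/
def S_CON : Prop := ∀ (V E : Type) [Fintype V] [Fintype E] [DecidableEq V] [DecidableEq E]
  (B : OrGraph V E) (h3 : ∀ v, 3 ≤ B.deg univ v) (lab : E × Bool → ℕ),
  Flow5 (Ex B h3 lab) → Flow5 B

/-- DET: 5-flows in expanders with all degrees between `3` and `Δ`. -/
def S_DET : Prop := ∀ Δ q : ℕ, ∃ K : ℕ, ∀ (V E : Type) [Fintype V] [Fintype E] [DecidableEq V]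
  [DecidableEq E] (B : OrGraph V E), (∀ v, 3 ≤ B.deg univ v) → (∀ v, B.deg univ v ≤ Δ) →
  (∀ e, B.t e ≠ B.h e) →
  (∀ X : Finset V, ∑ v ∈ X, B.deg univ v ≤ Fintype.card E →
    ∑ v ∈ X, B.deg univ v ≤ q * (B.cut X).card) →
  (∀ X : Finset V, X.card ≤ K → (ins B X).card ≤ X.card) → Flow5 B

/-! ### leaves: conversion -/

/-- BGC: the multigraph of a configuration. -/
def S_BGC : Prop := ∀ (V : Type) [Fintype V] [DecidableEq V] (m : ℕ) (a : Hf m → V)
  (π : Equiv.Perm (Hf m)),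
  (∀ v, (Bg a π).deg univ v = cnt a v) ∧
  (∀ X, ((Bg a π).cut X).card = cC a π X) ∧
  (∀ X, (ins (Bg a π) X).card = eC a π X) ∧
  (∀ X, 2 * eC a π X + cC a π X = sz a X) ∧
  (Sim a π → Flow5 (Bg a π) → SFlow (Cg a π))

/-- CHR: the flow for any orientation of the edges. -/
def S_CHR : Prop := ∀ (V : Type) [Fintype V] [DecidableEq V] (G : SimpleGraph V), SFlow G →
  ∀ (E : Type) [Fintype E] (s t : E → V), (∀ e, G.Adj (s e) (t e)) →
  (∀ u v, G.Adj u v → ∃! e : E, (s e = u ∧ t e = v) ∨ (s e = v ∧ t e = u)) →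
  ∃ φ : E → ℤ, (∀ v, ∑ e ∈ univ.filter (fun e => s e = v), φ e =
      ∑ e ∈ univ.filter (fun e => t e = v), φ e) ∧ ∀ e, 1 ≤ |φ e| ∧ |φ e| ≤ 4

end Pool.Agent.L0h98.RF
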