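import Pool.Agent.L0h98.RF.Def
import Pool.Agent.L0h98.GS.Fin

set_option autoImplicit false

/-! From configurations to graphs. -/

namespace Pool.Agent.L0h98.RF

open Finset Classical
open Pool.Agent.L0h98.GS (Hf Sim Cg eC GirthGt Bad Dg transfer exists_a even_sum sum_two)
open Pool.Agent.N404.LF (cnt)

/-- general transfer -/
theorem gen (Q : ∀ (V : Type), SimpleGraph V → Prop) (Δ g C₁ m₀ : ℕ)
    (hQ : ∀ (V : Type) [Fintype V] (m : ℕ) (a : Hf m → V), m₀ ≤ m → (∀ v, 3 ≤ cnt a v) →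
      (∀ v, cnt a v ≤ Δ) → m * (univ.filter fun π : Equiv.Perm (Hf m) =>
        Sim a π ∧ ¬ Q V (Cg a π)).card ≤ C₁ * (2 * m).factorial) :
    ∃ C M : ℕ, ∀ (V : Type) [Fintype V] (d : V → ℕ), (∀ v, 3 ≤ d v) → (∀ v, d v ≤ Δ) →
      M ≤ ∑ v, d v →
      (Even (∑ v, d v) → ∃ G : SimpleGraph V, Dg G d ∧ GirthGt G g) ∧
      ∀ P : SimpleGraph V → Prop, (∀ G, GirthGt G g → P G) →
        (∑ v, d v) * {G : SimpleGraph V | Dg G d ∧ P G ∧ ¬ Q V G}.ncard ≤
        C * {G : SimpleGraph V | Dg G d ∧ P G}.ncard := by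
  obtain ⟨C, m₁, hC⟩ := Pool.Agent.L0h28.GS.t_SWI Pool.Agent.L0h47.GS.t_CYC Δ (max g 2)
  refine ⟨2 * (C₁ * C), 2 * (m₀ + m₁ + 1), fun V _ d h3 hd hM => ?_⟩
  by_cases heven : Even (∑ v, d v)
  swap
  · refine ⟨fun h => absurd h heven, fun P _ => ?_⟩
    have h1 : {G : SimpleGraph V | Dg G d ∧ P G ∧ ¬ Q V G} = ∅ := by
      rw [Set.eq_empty_iff_forall_notMem]
      rintro G ⟨h, -⟩
      exact heven (even_sum G d h)
    rw [h1, Set.ncard_empty, mul_zero]
    exact Nat.zero_le _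
  obtain ⟨m, hm⟩ := even_iff_exists_two_mul.1 heven
  rw [hm] at hM ⊢
  obtain ⟨a, ha⟩ := exists_a d m hm
  have hd' : cnt a = d := funext ha
  subst hd'
  obtain ⟨⟨F, hF⟩, hS⟩ := Pool.Agent.L0h85.GS.t_CONF V m a
  have hS' : ∀ π : Equiv.Perm (Hf m), Sim a π → (∀ v, ((Cg a π).neighborSet v).ncard = cnt a v) :=
    fun π hπ => (hS π hπ).1
  have hbad := hC V m a (by omega) hd
  -- graphs of large girth
  have hgir : (univ.filter fun π : Equiv.Perm (Hf m) => ∀ i, ¬ Bad (max g 2) a π i).card ≤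
      (univ.filter fun π : Equiv.Perm (Hf m) => Sim a π ∧ GirthGt (Cg a π) g).card := by
    refine card_le_card fun π hπ => ?_
    rw [mem_filter] at hπ ⊢
    obtain ⟨h1, h2⟩ := Pool.Agent.L0h85.GS.t_GIR V m a π (max g 2) (le_max_right _ _) hπ.2
    exact ⟨mem_univ _, h1, fun v c hc => lt_of_le_of_lt (le_max_left _ _) (h2 v c hc)⟩
  have hfacpos : 0 < (2 * m).factorial := Nat.factorial_pos _
  have hpos : 0 < (univ.filter fun π : Equiv.Perm (Hf m) =>
      Sim a π ∧ GirthGt (Cg a π) g).card := by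
    by_contra hcon
    have h0 : (univ.filter fun π : Equiv.Perm (Hf m) => Sim a π ∧ GirthGt (Cg a π) g).card = 0 := by
      omega
    rw [h0] at hgir
    have h1 : (univ.filter fun π : Equiv.Perm (Hf m) => ∀ i, ¬ Bad (max g 2) a π i).card = 0 := by
      omega
    rw [h1, mul_zero] at hbad
    omega
  refine ⟨fun _ => ?_, fun P hP => ?_⟩
  · obtain ⟨π, hπ⟩ := Finset.card_pos.1 hpos
    rw [mem_filter] at hπ
    exact ⟨Cg a π, hS' π hπ.2.1, hπ.2.2⟩
  have htall := transfer a hF hS' P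
  have hall : (2 * m).factorial ≤ C * (F * {G : SimpleGraph V | Dg G (cnt a) ∧ P G}.ncard) := by
    refine hbad.trans (Nat.mul_le_mul_left _ ?_)
    rw [← htall]
    refine hgir.trans (card_le_card fun π hπ => ?_)
    rw [mem_filter] at hπ ⊢
    exact ⟨mem_univ _, hπ.2.1, hP _ hπ.2.2⟩
  have hFpos : 0 < F := by
    rcases Nat.eq_zero_or_pos F with h0 | h0
    · rw [h0, zero_mul, mul_zero] at hall; omega
    · exact h0
  have htbad := transfer a hF hS' (fun G => P G ∧ ¬ Q V G)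
  set X := {G : SimpleGraph V | Dg G (cnt a) ∧ P G}.ncard with hX
  set Y := {G : SimpleGraph V | Dg G (cnt a) ∧ P G ∧ ¬ Q V G}.ncard with hY
  have hle0 : ∀ R : SimpleGraph V → Prop, (∀ G, R G → ¬ Q V G) →
      (univ.filter fun π : Equiv.Perm (Hf m) => Sim a π ∧ R (Cg a π)).card ≤
      (univ.filter fun π : Equiv.Perm (Hf m) => Sim a π ∧ ¬ Q V (Cg a π)).card := by
    intro R hR
    refine card_le_card fun π hπ => ?_
    rw [mem_filter] at hπ ⊢
    exact ⟨mem_univ _, hπ.2.1, hR _ hπ.2.2⟩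
  have hle : F * Y ≤ (univ.filter fun π : Equiv.Perm (Hf m) =>
      Sim a π ∧ ¬ Q V (Cg a π)).card := by
    rw [← htbad]
    exact hle0 (fun G => P G ∧ ¬ Q V G) fun G h => h.2
  have h1 : m * (F * Y) ≤ C₁ * (C * (F * X)) :=
    (Nat.mul_le_mul_left _ hle).trans ((hQ V m a (by omega) h3 hd).trans
      (Nat.mul_le_mul_left _ hall))
  have h2 : F * (2 * m * Y) ≤ F * (2 * (C₁ * C) * X) := by
    calc F * (2 * m * Y) = 2 * (m * (F * Y)) := by ring
      _ ≤ 2 * (C₁ * (C * (F * X))) := Nat.mul_le_mul_left _ h1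
      _ = _ := by ring
  exact Nat.le_of_mul_le_mul_left h2 hFpos

/-- configurations -/
theorem conf (hD : S_DET) (hB : S_BIG) (hS : S_SML) (hG : S_BGC) (Δ : ℕ) :
    ∃ C₁ m₀ : ℕ, ∀ (V : Type) [Fintype V] (m : ℕ) (a : Hf m → V), m₀ ≤ m →
      (∀ v, 3 ≤ cnt a v) → (∀ v, cnt a v ≤ Δ) → m * (univ.filter fun π : Equiv.Perm (Hf m) =>
        Sim a π ∧ ¬ SFlow (Cg a π)).card ≤ C₁ * (2 * m).factorial := by
  obtain ⟨q, S₀, m₁, hB⟩ := hB
  obtain ⟨K, hK⟩ := hD Δ (max q 3)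
  obtain ⟨C, m₂, hS⟩ := hS Δ (max K S₀)
  refine ⟨1 + C, max m₁ m₂, fun V _ m a hm h3 hΔ => ?_⟩
  have e1 := hB V m a ((le_max_left _ _).trans hm) h3
  have e2 := hS V m a ((le_max_right _ _).trans hm) (fun v => by have := h3 v; omega) hΔ
  set B1 := univ.filter fun π : Equiv.Perm (Hf m) =>
    ∃ X : Finset V, S₀ ≤ sz a X ∧ sz a X ≤ m ∧ q * cC a π X ≤ sz a X with hB1
  set B2 := univ.filter fun π : Equiv.Perm (Hf m) =>
    ∃ X : Finset V, X.card ≤ max K S₀ ∧ X.card < eC a π X with hB2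
  have hsub : (univ.filter fun π : Equiv.Perm (Hf m) => Sim a π ∧ ¬ SFlow (Cg a π)) ⊆
      B1 ∪ B2 := by
    intro π hπ
    by_contra hcon
    rw [mem_union, not_or, hB1, hB2, mem_filter, mem_filter] at hcon
    obtain ⟨n1, n2⟩ := hcon
    rw [mem_filter] at hπ
    obtain ⟨-, hsim, hflow⟩ := hπ
    have n1' : ∀ X : Finset V, S₀ ≤ sz a X → sz a X ≤ m → sz a X < q * cC a π X := by
      intro X hX1 hX2
      by_contra h
      exact n1 ⟨mem_univ _, X, hX1, hX2, not_lt.1 h⟩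
    have n2' : ∀ X : Finset V, X.card ≤ max K S₀ → eC a π X ≤ X.card := by
      intro X hX1
      by_contra h
      exact n2 ⟨mem_univ _, X, hX1, not_le.1 h⟩
    obtain ⟨g1, g2, g3, g4, g5⟩ := hG V m a π
    apply hflow
    refine g5 hsim (hK V (Fin m) (Bg a π) (fun v => by rw [g1]; exact h3 v)
      (fun v => by rw [g1]; exact hΔ v) hsim.1 ?_ ?_)
    · intro X hX
      have e : ∑ v ∈ X, (Bg a π).deg univ v = sz a X := Finset.sum_congr rfl fun v _ => g1 v
      rw [e, Fintype.card_fin] at hX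
      rw [e, g2]
      by_cases hs : S₀ ≤ sz a X
      · exact (n1' X hs hX).le.trans (Nat.mul_le_mul_right _ (le_max_left _ _))
      · have hc : 3 * X.card ≤ sz a X := by
          unfold sz
          calc 3 * X.card = ∑ _v ∈ X, 3 := by rw [sum_const, smul_eq_mul, mul_comm]
            _ ≤ _ := Finset.sum_le_sum fun v _ => h3 v
        have hx : eC a π X ≤ X.card := n2' X (by
          refine le_trans ?_ (le_max_right _ _)
          omega)
        have h4 := g4 X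
        have h5 : sz a X ≤ 3 * cC a π X := by omega
        exact h5.trans (Nat.mul_le_mul_right _ (le_max_right _ _))
    · intro X hX
      rw [g3]
      exact n2' X (hX.trans (le_max_left _ _))
  calc m * (univ.filter fun π : Equiv.Perm (Hf m) => Sim a π ∧ ¬ SFlow (Cg a π)).card
      ≤ m * (B1.card + B2.card) :=
        Nat.mul_le_mul_left _ ((card_le_card hsub).trans (card_union_le _ _))
    _ = m * B1.card + m * B2.card := mul_add _ _ _
    _ ≤ (2 * m).factorial + C * (2 * m).factorial := Nat.add_le_add e1 e2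
    _ = _ := by ring

theorem core (hD : S_DET) (hB : S_BIG) (hS : S_SML) (hG : S_BGC) (Δ g : ℕ) :
    ∃ C M : ℕ, ∀ (V : Type) [Fintype V] (d : V → ℕ), (∀ v, 3 ≤ d v) → (∀ v, d v ≤ Δ) →
      M ≤ ∑ v, d v →
      (Even (∑ v, d v) → ∃ G : SimpleGraph V, Dg G d ∧ GirthGt G g) ∧
      ∀ P : SimpleGraph V → Prop, (∀ G, GirthGt G g → P G) →
        (∑ v, d v) * {G : SimpleGraph V | Dg G d ∧ P G ∧ ¬ SFlow G}.ncard ≤
        C * {G : SimpleGraph V | Dg G d ∧ P G}.ncard := by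
  obtain ⟨C₁, m₀, h⟩ := conf hD hB hS hG Δ
  obtain ⟨C, M, h⟩ := gen (fun V G => ∃ i : Fintype V, @SFlow V i G) Δ g C₁ m₀ (by
    intro V _ m a hm h3 hΔ
    refine (Nat.mul_le_mul_left m (card_le_card fun π hπ => ?_)).trans (h V m a hm h3 hΔ)
    rw [mem_filter] at hπ ⊢
    exact ⟨mem_univ _, hπ.2.1, fun hcon => hπ.2.2 ⟨_, hcon⟩⟩)
  refine ⟨C, M, fun V iV d h3 hd hM => ?_⟩
  obtain ⟨e1, e2⟩ := h V d h3 hd hM
  refine ⟨e1, fun P hP => ?_⟩
  have e : {G : SimpleGraph V | Dg G d ∧ P G ∧ ¬ SFlow G} =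
      {G : SimpleGraph V | Dg G d ∧ P G ∧ ¬ ∃ i : Fintype V, @SFlow V i G} := by
    ext G
    constructor
    · rintro ⟨h1, h2, h3⟩
      refine ⟨h1, h2, ?_⟩
      rintro ⟨i, h4⟩
      apply h3
      have : i = iV := Subsingleton.elim _ _
      subst this
      exact h4
    · rintro ⟨h1, h2, h3⟩
      exact ⟨h1, h2, fun h4 => h3 ⟨iV, h4⟩⟩
  rw [e]
  exact e2 P hP

end Pool.Agent.L0h98.RF
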