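import Pool.Agent.L0h98.RF.Def

set_option autoImplicit false

/-! The deterministic part: assembly. -/

namespace Pool.Agent.L0h98.RF

open Finset Classical
open Pool.Agent.H160R2.HF

theorem t_DET (hL : S_LAB) (hC : S_CUB) (hX : S_EXX) (hS : S_SMX) (hF : S_CUBF)
    (hN : S_CON) : S_DET := by
  intro Δ q
  refine ⟨4 ^ (10 * ((q + 1) * (Δ + 1)) + 5), ?_⟩
  intro V E _ _ _ _ B h3 hΔ hl hE hK
  obtain ⟨lab, hlab⟩ := hL V E B
  obtain ⟨h1, h2⟩ := hC V E B h3 lab hlab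
  refine hN V E B h3 lab ?_
  exact hF _ _ (Ex B h3 lab) ((q + 1) * (Δ + 1)) h1 (h2 hl) (hX V E B h3 lab Δ q hΔ hE)
    (hS V E B h3 lab _ hK)

end Pool.Agent.L0h98.RF
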