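import Pool.Agent.L0h24.RF.MPX
import Pool.Agent.L0h39.RF.CHR
import Pool.Agent.L0h39.RF.LAB
import Pool.Agent.L0h48.RF.CUBF
import Pool.Agent.L0h48.RF.SMX
import Pool.Agent.L0h55.RF.BGN
import Pool.Agent.L0h61.RF.EXX
import Pool.Agent.L0h62.RF.BIN
import Pool.Agent.L0h62.RF.NUM
import Pool.Agent.L0h85.RF.CONM
import Pool.Agent.L0h85.RF.ONE
import Pool.Agent.L0h85.RF.SML
import Pool.Agent.L0h88.RF.BGC
import Pool.Agent.L0h88.RF.CUB
import Pool.Agent.L0h92.RF.INS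
import Pool.Agent.L0h95.RF.BIG
import Pool.Agent.L0h98.RF.Core
import Pool.Agent.L0h98.RF.Det

set_option autoImplicit false

/-! The leaves of the project, put together. -/

namespace Pool.Agent.L0h98.RF

open Finset Classical
open Pool.Agent.L0h98.GS (GirthGt Dg)

theorem det : S_DET :=
  t_DET Pool.Agent.L0h39.RF.t_LAB Pool.Agent.L0h88.RF.t_CUB Pool.Agent.L0h61.RF.Exx.t_EXX
    Pool.Agent.L0h48.RF.t_SMX Pool.Agent.L0h48.RF.t_CUBF Pool.Agent.L0h85.RF.t_CON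

theorem ins' : S_INS := Pool.Agent.L0h92.RF.t_INS Pool.Agent.L0h24.RF.t_MPX

theorem big : S_BIG :=
  Pool.Agent.L0h95.RF.t_BIG (Pool.Agent.L0h85.RF.t_ONE ins' Pool.Agent.L0h62.RF.t_NUM
    Pool.Agent.L0h62.RF.t_BIN) Pool.Agent.L0h55.RF.t_BGN Pool.Agent.L0h88.RF.t_BGC

theorem fin (Δ g : ℕ) :
    ∃ C M : ℕ, ∀ (V : Type) [Fintype V] (d : V → ℕ), (∀ v, 3 ≤ d v) → (∀ v, d v ≤ Δ) →
      M ≤ ∑ v, d v →
      (Even (∑ v, d v) → ∃ G : SimpleGraph V, Dg G d ∧ GirthGt G g) ∧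
      ∀ P : SimpleGraph V → Prop, (∀ G, GirthGt G g → P G) →
        (∑ v, d v) * {G : SimpleGraph V | Dg G d ∧ P G ∧ ¬ SFlow G}.ncard ≤
        C * {G : SimpleGraph V | Dg G d ∧ P G}.ncard :=
  core det big Pool.Agent.L0h85.RF.t_SML Pool.Agent.L0h88.RF.t_BGC Δ g

end Pool.Agent.L0h98.RF
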